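import Pool.Agent.Y102.V19

set_option autoImplicit false

/-!
# Products of gamma values all of whose conjugates are algebraic multiples of powers of `π`

Let `a 1, …, a r` be rational numbers with common denominator `D`. The conjecture of Rohrlich says that
`Γ(a 1) ⋯ Γ(a r)` is an algebraic multiple of `π ^ (r / 2)` only if the sum of the fractional parts
`{m a i}` is `r / 2` for all `m` prime to `D`. We prove this under the assumption that not only the
product itself, but all its conjugates `Γ(m a 1) ⋯ Γ(m a r)` are algebraic multiples of `π ^ (r / 2)`; if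
none of the `a i` is an integer, then half of the conjugates suffices, `1 ≤ m ≤ D / 2`. So if the identity
of fractional parts fails, then at least one of the `φ(D) / 2` conjugates is not an algebraic multiple
of `π ^ (r / 2)`. (By the reflection formula negative exponents are allowed as well, so that the
theorem determines all multiplicative relations, with factors which are algebraic multiples of powers
of `π`, between the vectors `(Γ(m a))`, `m` prime to `D`: they are the consequences of the reflection and
multiplication formulas.)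

The proof uses an abelian variety `A` over the field of algebraic numbers which contains the Jacobian
of the Fermat curve of degree `D` and sufficiently many other abelian varieties with complex
multiplication by subfields of `ℚ(μ_D)` (`ContainsFermat`). The relation between the gamma values gives a
de Rham-Betti class in a tensor space of `H^1(A)`. We show that this is a Hodge class. There is no
assumption on transcendence: the theorem of Schneider and Lang for the theta functions of `A` is
proved in this repository. The existence of such an abelian variety is known for all `D ≥ 3`, but not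
proved here; it is the assumption `ContainsFermat`:

* `H_1(A, ℂ)` has a basis `v j` of eigenvectors of the complex multiplication. The Galois group
  `U = (ℤ / D) ^ ×` of `ℚ(μ_D)` permutes the indices `j`, and the type `ε j = 1` or `-1` says whether `v j`
  pairs with holomorphic or with antiholomorphic forms. (`τ u` is an automorphism of `ℂ` which extends the
  automorphism of `ℚ(μ_D)` given by `u`.) The Lie algebra of the Hodge group acts through the complex
  multiplication (`galois`) and is generated by the conjugates of the Hodge cocharacter (`lie`). It is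
  described as the Lie algebra `InLie` of the endomorphisms that annihilate all classes which are Hodge
  classes and de Rham-Betti classes. By the theorem of Deligne these are all Hodge classes.
* For every odd character `χ` of `U` the variety `A` has a factor with complex multiplication by the
  cyclic CM field fixed by the kernel of `χ`, and with a type whose Fourier coefficients vanish at all
  characters which are not trivial on some element `h` that moves the type, and do not have the same
  kernel as `χ` (`Saturated`). Such types exist for all cyclic groups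
  (`Pool.Agent.Y102.CM.exists_type`), and abelian varieties over the field of algebraic numbers
  exist for all CM types, by the theorem of Shimura and Taniyama.
* For all `a`, `b` with `a, b, a + b ≠ 0` the variety `A` contains the factor of the Jacobian of the
  Fermat curve that belongs to `(a, b)` (tensored with `ℤ[μ_D]` if `(a, b)` is not primitive): its
  homology is isomorphic to `ℚ(μ_D)` by `p`, the periods of the eigenforms are the values of the beta
  function at `({u a / D}, {u b / D})` multiplied with the conjugates of elements of `ℚ(μ_D)`, and the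
  eigenform is holomorphic if `{u a / D} + {u b / D} < 1` (`IsFermatPart`; Rohrlich, Gross).
-/

open Module Matrix Pool.Agent.Y102 Pool.Agent.W516.DR Pool.Agent.H204R3.GP

noncomputable section

namespace Pool.Agent.Results.MP_c2409d_nt.AllConjugates

/-- The group of the residue classes prime to `D`. -/
abbrev U (D : ℕ) : Type := (ZMod D)ˣ

/-- The fractional part `{a / D}`. -/
def fr {D : ℕ} (a : ZMod D) : ℝ := (a.val : ℝ) / D

/-- The value of the beta function at `({a / D}, {b / D})`. -/
def beta {D : ℕ} (a b : ZMod D) : ℝ :=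
  Real.Gamma (fr a) * Real.Gamma (fr b) / Real.Gamma (fr a + fr b)

/-- The primitive root of unity of order `D`. -/
def zeta (D : ℕ) : ℂ := Complex.exp (2 * Real.pi * Complex.I / D)

section

variable {g : ℕ} (A : AbVar g)

/-- The multilinear forms in `r` variables in `H_1(A, ℚ)`. -/
abbrev Form (r : ℕ) : Type := MultilinearMap ℚ (fun _ : Fin r => A.H1) ℚ

/-- The pair of `a` and `φ` is a de Rham-Betti class in `h^1(A) ^ {⊗ r} (w)`. -/
def IsDRB {r : ℕ} (w : ℤ) (a : (Fin r → Fin g ⊕ Fin g) → QBar) (φ : Form A r) : Prop :=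
  Compat A.dR (2 * Real.pi * Complex.I) w a φ

/-- `φ` is a Hodge class. -/
def IsHodge {r : ℕ} (φ : Form A r) : Prop := IsHodgeTensor (A.per : A.H1 →+ (Fin g → ℂ)) φ

/-- The endomorphism `X` annihilates the form `φ` (as a derivation). -/
def Annihilates {r : ℕ} (X : Module.End ℚ A.H1) (φ : Form A r) : Prop :=
  ∀ v, ∑ k, φ (Function.update v k (X (v k))) = 0

/-- `X` is in the Lie algebra of the endomorphisms that annihilate all classes that are Hodge
classes and de Rham-Betti classes. -/
def InLie (X : Module.End ℚ A.H1) : Prop :=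
  ∀ (r : ℕ) (w : ℤ) (a : (Fin r → Fin g ⊕ Fin g) → QBar) (φ : Form A r),
    IsDRB A w a φ → IsHodge A φ → Annihilates A X φ

/-- The algebra of the endomorphisms of `H_1(A, ℂ)`, as matrices for the basis of the lattice. -/
abbrev EndC (_ : AbVar g) : Type := Matrix (Fin (2 * g)) (Fin (2 * g)) ℂ

/-- The matrix of the extension of an endomorphism of `H_1(A, ℚ)` to `H_1(A, ℂ)`. -/
def toC (X : Module.End ℚ A.H1) : EndC A := Matrix.of fun i j => (X (Pi.single j 1) i : ℂ)

/-- The complex Lie algebra, acting on `H_1(A, ℂ)`. -/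
def lieC : Submodule ℂ (EndC A) := Submodule.span ℂ {Y | ∃ X, InLie A X ∧ Y = toC A X}

variable {D : ℕ} [NeZero D] [MulAction (U D) (Fin (2 * g))]

/-- The Fourier coefficient at the character `ψ` of the type `u ↦ ε (u j)`. -/
def coeff (ε : Fin (2 * g) → ℤ) (j : Fin (2 * g)) (ψ : U D →* ℂ) : ℂ := ∑ u, ψ u * ε (u • j)

/-- For all odd characters `χ` there are a type `j` and an element `h` which moves it, such that the
Fourier coefficients of the type vanish at all characters which do not have the kernel of `χ` and
are not trivial on `h`. -/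
def Saturated (D : ℕ) [NeZero D] [MulAction (U D) (Fin (2 * g))] (ε : Fin (2 * g) → ℤ) : Prop :=
  ∀ χ : U D →* ℂ, χ (-1) = -1 → ∃ (j : Fin (2 * g)) (h : U D),
    (∃ u : U D, ε (u • h • j) ≠ ε (u • j)) ∧
    ∀ ψ : U D →* ℂ, coeff ε j ψ ≠ 0 → (∀ u, χ u = 1 ↔ ψ u = 1) ∨ ψ h = 1

/-- The factor of the Jacobian of the Fermat curve that belongs to `(a, b)`. -/
structure IsFermatPart (ε : Fin (2 * g) → ℤ) (v : Fin (2 * g) → Fin (2 * g) → ℂ)
    (τ : U D → ℂ ≃+* ℂ) (a b : ZMod D) (p : A.H1 →ₗ[ℚ] ℂ) (j : Fin (2 * g)) : Prop where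
  /-- the image of `p` is the cyclotomic field -/
  range : ∀ z, z ∈ Algebra.adjoin ℚ {zeta D} ↔ ∃ x, p x = z
  /-- the conjugates of `p`, multiplied with the values of the beta function, are de Rham classes
  over the field of algebraic numbers -/
  periods : ∀ u : U D, ∃ c : Fin g ⊕ Fin g → QBar, ∀ x,
    (beta ((u : ZMod D) * a) ((u : ZMod D) * b) : ℂ) * τ u (p x) = ∑ i, algebraMap QBar ℂ (c i) * A.dR i x
  /-- the conjugate with index `u` pairs to zero with all eigenvectors `v l`, `l ≠ u j` -/
  eigen : ∀ (u : U D) l, l ≠ u • j → ∑ k, v l k * τ u (p (Pi.single k 1)) = 0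
  /-- the type -/
  type : ∀ u : U D, ε (u • j) = if fr ((u : ZMod D) * a) + fr ((u : ZMod D) * b) < 1 then 1 else -1

/-- The data of the eigenvectors, the types and the automorphisms. -/
structure IsFermat (ε : Fin (2 * g) → ℤ) (v : Fin (2 * g) → Fin (2 * g) → ℂ)
    (τ : U D → ℂ ≃+* ℂ) : Prop where
  /-- the `v j` are a basis of `H_1(A, ℂ)` -/
  basis : LinearIndependent ℂ v
  /-- the types are odd -/
  odd : ∀ j, ε ((-1 : U D) • j) = -ε j
  saturated : Saturated D ε
  /-- the `τ u` extend the automorphisms of the cyclotomic field -/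
  autos : ∀ u : U D, τ u (zeta D) = zeta D ^ (u : ZMod D).val
  /-- the elements of the Lie algebra are in the algebra of complex multiplications -/
  galois : ∀ X, InLie A X → ∃ x : Fin (2 * g) → ℂ, ∀ (u : U D) j,
    toC A X *ᵥ v (u • j) = τ u (x j) • v (u • j)
  /-- the Lie algebra is spanned by the conjugates of the Hodge cocharacter -/
  lie : lieC A = Submodule.span ℂ {Y | ∃ u : U D, ∀ j, Y *ᵥ v j = (ε (u • j) : ℂ) • v j}
  /-- the factors of the Jacobian of the Fermat curve -/
  part : ∀ a b : ZMod D, a ≠ 0 → b ≠ 0 → a + b ≠ 0 → ∃ p j, IsFermatPart A ε v τ a b p j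

end

/-- `A` contains the Jacobian of the Fermat curve of degree `D`, and other abelian varieties with
complex multiplication by subfields of `ℚ(μ_D)`. -/
def ContainsFermat (D : ℕ) [NeZero D] {g : ℕ} (A : AbVar g) : Prop :=
  ∃ (_ : MulAction (U D) (Fin (2 * g))) (ε : Fin (2 * g) → ℤ)
    (v : Fin (2 * g) → Fin (2 * g) → ℂ) (τ : U D → ℂ ≃+* ℂ), IsFermat A ε v τ

/-- `z` is an algebraic multiple of `π ^ (r / 2)`. -/
def AlgebraicMultiple (r : ℕ) (z : ℝ) : Prop :=
  ∃ α : ℂ, IsAlgebraic ℚ α ∧ (z : ℂ) = α * (Real.pi ^ ((r : ℝ) / 2) : ℝ)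

/-- The sum of the fractional parts of `m a i` is `r / 2` for all `m` prime to `D`. -/
def Identity (D : ℕ) {r : ℕ} (a : Fin r → ℚ) : Prop :=
  ∀ m : ℕ, m.Coprime D → ∑ i, Int.fract ((m : ℝ) * a i) = r / 2

theorem AlgebraicMultiple.alg {r : ℕ} {z : ℝ} (h : AlgebraicMultiple r z) :
    IsAlgebraic ℚ (z / Real.pi ^ ((r : ℝ) / 2)) := by
  obtain ⟨α, h1, h2⟩ := h
  have h3 : (Real.pi ^ ((r : ℝ) / 2) : ℝ) ≠ 0 := (Real.rpow_pos_of_pos Real.pi_pos _).ne'
  have h4 : ((z / Real.pi ^ ((r : ℝ) / 2) : ℝ) : ℂ) = α := by
    rw [Complex.ofReal_div, h2, mul_div_cancel_right₀]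
    exact_mod_cast h3
  rw [← h4] at h1
  exact (isAlgebraic_algebraMap_iff (R := ℚ) (A := ℂ) (algebraMap ℝ ℂ).injective).1 h1

/-- **Products of gamma values all of whose conjugates are algebraic multiples of `π ^ (r / 2)`.** -/
theorem result (D : ℕ) [NeZero D] (hD : 3 ≤ D) (g : ℕ) (A : AbVar g) (hA : ContainsFermat D A)
    (r : ℕ) (a : Fin r → ℚ) (ha : ∀ i, ∃ n : ℤ, (D : ℚ) * a i = n) :
    ((∀ i, ∀ n : ℤ, a i ≠ n) →
      (∀ m : ℕ, 1 ≤ m → 2 * m ≤ D → m.Coprime D →
        AlgebraicMultiple r (∏ i, Real.Gamma ((m : ℝ) * a i))) → Identity D a) ∧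
    ((∀ i, ∀ n : ℕ, a i ≠ -n) →
      (∀ m : ℕ, 1 ≤ m → m < D → m.Coprime D →
        AlgebraicMultiple r (∏ i, Real.Gamma ((m : ℝ) * a i))) → Identity D a) := by
  obtain ⟨inst, ε, v, τ, h⟩ := hA
  have hNA : ∀ X, X ∈ A.NA ↔ InLie A X := fun X => A.mem_NA_iff
  have hlie : lieC A = Submodule.span ℂ {Y | ∃ X ∈ A.NA, Y = Pool.Agent.Y102.toC X} := by
    unfold lieC
    congr 1
    ext Y
    exact ⟨fun ⟨X, hX, h⟩ => ⟨X, (hNA X).2 hX, h⟩, fun ⟨X, hX, h⟩ => ⟨X, (hNA X).1 hX, h⟩⟩
  have key : A.FermatData ε v (fun s : Additive (ZMod D)ˣ => τ s.toMul) := by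
    refine ⟨⟨h.basis, h.odd, ?_, fun X hX => ?_, ?_⟩, h.autos, fun x y hx hy hxy => ?_⟩
    · intro χ hχ
      obtain ⟨j, t, h1, h2⟩ := h.saturated (AddChar.toMonoidHomEquiv χ) hχ
      refine ⟨j, Additive.ofMul t, h1, fun ψ hψ => ?_⟩
      have h3 : coeff ε j (AddChar.toMonoidHomEquiv ψ) =
          CM.ft (fun s : Additive (U D) => (ε (s +ᵥ j) : ℂ)) ψ :=
        Fintype.sum_equiv Additive.ofMul _ _ fun u => rfl
      exact h2 (AddChar.toMonoidHomEquiv ψ) (by rw [h3]; exact hψ)
    · obtain ⟨x, hx⟩ := h.galois X ((hNA X).1 hX)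
      exact ⟨x, fun s j => hx s.toMul j⟩
    · rw [← hlie, h.lie]
      rfl
    · obtain ⟨p, j, h1⟩ := h.part x y hx hy hxy
      exact ⟨p, j, fun x => (h1.range _).2 ⟨x, rfl⟩, fun z hz => (h1.range z).1 hz, h1.periods,
        h1.eigen, h1.type⟩
  exact ⟨fun h1 h2 m hm => key.half h1 ha (fun m h3 h4 h5 => (h2 m h3 h4 h5).alg) hD m hm,
    fun h1 h2 m hm => key.full h1 ha (fun m h3 h4 h5 => (h2 m h3 h4 h5).alg) hD m hm⟩

end Pool.Agent.Results.MP_c2409d_nt.AllConjugates
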