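import Pool.Agent.Y771.RP.Ferm

/-!
# Products of gamma values `B(q_j, ρ_i) = Γ(q_j) Γ(ρ_i) / Γ(q_j + ρ_i)`, relative to arbitrary constants

Let `ρ_1, …, ρ_m` be positive real (for instance rational) numbers such that no `ρ_i` and no `ρ_i - ρ_k` is an integer, and
let `q_1, …, q_n` be rational. We consider all polynomial relations of bounded degree (in particular the multiplicative ones:
a product of the numbers `Γ(q_j)`, `Γ(ρ_i)`, `1 / Γ(q_j + ρ_i)` is an algebraic multiple of a power of `π`) between the numbers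
`B(q_j, ρ_i) = ∫_0^1 x^(q_j-1) (1-x)^(ρ_i-1) dx`, with coefficients of bounded height in a number field of bounded degree,
multiplied by arbitrary complex numbers `ξ_1, …, ξ_g`, for instance powers of `π`.
-/

set_option autoImplicit false

open NumberField

namespace Pool.Agent.Results.MP_c2409d_nt.FermatRelative

/-- Euler's integral `B(r, s) = ∫_0^1 x^(r-1) (1-x)^(s-1) dx`. -/
noncomputable def B (r s : ℝ) : ℝ := ∫ x in (0 : ℝ)..1, x ^ (r - 1) * (1 - x) ^ (s - 1)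

/-- The `n`-tuples `q` of elements of the set `X` of rational numbers for which there is a polynomial `P` of degree at most
`d` in each of `m n` variables, with coefficients of the form `∑ ξ_i ι(c_i)`, where the `c_i` are integers of the number
field `F` all of whose conjugates have absolute value at most `T ^ A`, such that the value of `P` at the numbers
`B(q_j, ρ_i)` is at most `T ^ (-R)` times the absolute value of some nonzero coefficient of `P`. -/
def Exceptional {m g : ℕ} (n d : ℕ) (ρ : Fin m → ℝ) (F : Type) [Field F] [NumberField F] (ι : F →+* ℂ)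
    (ξ : Fin g → ℂ) (X : Finset ℚ) (A R T : ℝ) : Set (Fin n → ℚ) :=
  {q | (∀ j, q j ∈ X) ∧ ∃ P : MvPolynomial (Fin n × Fin m) ℂ, (∀ x, P.degreeOf x ≤ d) ∧
    (∀ s, ∃ c : Fin g → 𝓞 F, (∀ i (φ : F →+* ℂ), ‖φ (c i)‖ ≤ T ^ A) ∧ P.coeff s = ∑ i, ξ i * ι (c i)) ∧
    ∃ s₀, P.coeff s₀ ≠ 0 ∧
      ‖MvPolynomial.aeval (fun x : Fin n × Fin m => (B (q x.1) (ρ x.2) : ℂ)) P‖ ≤ T ^ (-R) * ‖P.coeff s₀‖}

/-- Let `0 < a ≤ b`, let `ρ_1, …, ρ_m > 0` be such that no `ρ_i` and no `ρ_i - ρ_k` (`i ≠ k`) is an integer. For all `l`, `n`,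
`g`, `d`, `A` and `ε > 0` there are `R`, `C`, `T₀` such that for every number field `F` of degree at most `l`, every embedding
`ι` of `F` in `ℂ`, all complex numbers `ξ_1, …, ξ_g`, all `T ≥ T₀` and every finite set `X` of rational numbers of `[a, b]` with
denominators at most `T` the number of exceptional `n`-tuples of elements of `X` is at most `C T^ε |X|^(n - 1)`. -/
theorem result (m : ℕ) (ρ : Fin m → ℝ) (hρ : ∀ i, 0 < ρ i) (h1 : ∀ i, ∀ z : ℤ, ρ i ≠ z)
    (h2 : ∀ i k, i ≠ k → ∀ z : ℤ, ρ i - ρ k ≠ z) (a b : ℝ) (ha : 0 < a) (l n g d : ℕ) (A ε : ℝ) (hε : 0 < ε) :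
    ∃ R C T₀ : ℝ, ∀ (F : Type) [Field F] [NumberField F], Module.finrank ℚ F ≤ l → ∀ (ι : F →+* ℂ) (ξ : Fin g → ℂ)
      (T : ℝ), T₀ ≤ T → ∀ X : Finset ℚ, (∀ x ∈ X, a ≤ (x : ℝ) ∧ (x : ℝ) ≤ b ∧ (x.den : ℝ) ≤ T) →
        ((Exceptional n d ρ F ι ξ X A R T).ncard : ℝ) ≤ C * T ^ ε * (X.card : ℝ) ^ (n - 1) := by
  obtain ⟨R, C, T₀, hC, H⟩ := Y771.RP.ferm_main l n m g d ρ hρ h1 h2 a b ha A ε hε
  refine ⟨R, C, T₀, fun F _ _ hF ι ξ T hT X hX => ?_⟩
  refine le_trans (le_of_eq ?_) (H F hF ι ξ T hT X hX)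
  congr 2
  ext q
  constructor
  · rintro ⟨hq, P, hPd, hPc, s₀, hs₀, hs⟩
    refine ⟨hq, P, hPd, hPc, s₀, hs₀, ?_⟩
    have h3 : (fun x : Fin n × Fin m => (B (q x.1) (ρ x.2) : ℂ)) =
        fun x : Fin n × Fin m => ((TH818.AP.Bt (ρ x.2) (q x.1) : ℝ) : ℂ) := by
      funext x
      rw [← TH818.AP.betaInt (ρ x.2) (q x.1) (hρ x.2) (ha.trans_le (hX _ (hq x.1)).1)]
      rfl
    rw [h3] at hs
    exact hs
  · rintro ⟨hq, P, hPd, hPc, s₀, hs₀, hs⟩
    refine ⟨hq, P, hPd, hPc, s₀, hs₀, ?_⟩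
    have h3 : (fun x : Fin n × Fin m => (B (q x.1) (ρ x.2) : ℂ)) =
        fun x : Fin n × Fin m => ((TH818.AP.Bt (ρ x.2) (q x.1) : ℝ) : ℂ) := by
      funext x
      rw [← TH818.AP.betaInt (ρ x.2) (q x.1) (hρ x.2) (ha.trans_le (hX _ (hq x.1)).1)]
      rfl
    rw [h3]
    exact hs

end Pool.Agent.Results.MP_c2409d_nt.FermatRelative
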