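import Pool.Agent.Y627.KW.Gam

/-!
# Values of the Gamma function at tuples of rational and algebraic numbers

(1) Let `k` be a number field in `ℂ`, let `α_i > 0`, `γ_i`, `λ_l` be real numbers such that no nonzero integer vector
`(m, c)` satisfies both `∑ m_i α_i = 0` and `∑ m_i α_i log α_i + ∑ c_l λ_l = 0` (the condition excludes the
multiplication formulas). For `x = (x_1, …, x_n)` in `k ^ n` we consider the numbers `π`, `Γ (α_i x_j + γ_i)`,
`exp (λ_l x_j)`. The `n`-tuples of height at most `T`, with the `x_j` in compact sets avoiding the poles, at which these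
numbers satisfy a relation (even an approximate one) of degree at most `d` with coefficients in `k` of height at most
`T ^ A` lie on at most `C T ^ ε` hypersurfaces of degree at most `D`. The simplest case are the numbers
`π, Γ (x_1), …, Γ (x_n)`, `x` in `ℚ ^ n`; the functional equations show that hypersurfaces, such as `x_1 + x_2 = 1` or
`x_1 = x_2 + 1`, have to be excluded.

(2) For Rohrlich's conjecture: among the (about `T ^ (2 r)`) `r`-tuples of rational numbers of height at most `T` in a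
compact set, at most `C T ^ (2 (r - 1) + ε)` are such that `Γ (a_1) ⋯ Γ (a_r) = α π ^ (r / 2)` with `α ^ 2` a root of an
integer polynomial of degree at most `δ` with coefficients of absolute value at most `T ^ A`.

Earlier results of this pool: `RationalMultiples` (one parameter `1 / n`, products equal to rational multiples of `π ^ s`)
and, for another problem, `RationalParameters` (a single rational number `q` for all the values, `T ^ β` with
`β > 2 - 2 / ((d + 1) ^ (n + 1) + 1)` exceptions).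

Proof: the general theorem of helper124 in the form of helper771 (`Pool.Agent.Y771.KF.stdK`) reduces this to the algebraic
independence of the functions `Γ (α_i z + γ_i)`, `exp (λ_l z)` over `ℂ (z)`, which follows from Stirling's formula.
-/

set_option autoImplicit false

namespace Pool.Agent.Results.MP_c2409d_nt.GammaTuples

/-- The numbers `π`, `Γ (α_i x_j + γ_i)` and `exp (λ_l x_j)`, where `x_j` is read as a complex number by the
embedding `σ`. -/
noncomputable def numbers {k : Type} [Field k] (σ : k →+* ℂ) {n p r : ℕ} (α γ : Fin p → ℝ) (lam : Fin r → ℝ)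
    (x : Fin n → k) : Option (Fin n × (Fin p ⊕ Fin r)) → ℂ
  | none => (Real.pi : ℂ)
  | some (j, Sum.inl i) => Complex.Gamma (α i * σ (x j) + γ i)
  | some (j, Sum.inr l) => Complex.exp (lam l * σ (x j))

/-- The `n`-tuples `x` of elements of `k`, of height at most `T` and with `σ x_j ∈ K_j`, for which some nonzero
polynomial with coefficients in `k` of height at most `T ^ A`, of degree at most `d` in each variable, takes at the
`n (p + r) + 1` numbers a value of absolute value at most `T ^ (-B)`. -/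
def Exceptional {k : Type} [Field k] [NumberField k] (σ : k →+* ℂ) {n p r : ℕ} (d : ℕ) (α γ : Fin p → ℝ)
    (lam : Fin r → ℝ) (K : Fin n → Set ℂ) (A B T : ℝ) : Set (Fin n → k) :=
  {x | (∀ j, σ (x j) ∈ K j ∧ Height.mulHeight₁ (x j) ≤ T) ∧
    ∃ P : MvPolynomial (Option (Fin n × (Fin p ⊕ Fin r))) k, P ≠ 0 ∧ (∀ i, P.degreeOf i ≤ d) ∧
      (∀ e, Height.mulHeight₁ (P.coeff e) ≤ T ^ A) ∧
      ‖MvPolynomial.eval₂ σ (numbers σ α γ lam x) P‖ ≤ T ^ (-B)}

/-- The `r`-tuples of rational numbers `a_j` in `K`, with numerators and denominators at most `T`, such that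
`(Γ (a_1) ⋯ Γ (a_r)) ^ 2 = β π ^ r`, where `β` is a root of a nonzero integer polynomial of degree at most `δ`
whose coefficients have absolute value at most `T ^ A`. -/
def ProductTuples (r δ : ℕ) (K : Set ℝ) (A T : ℝ) : Set (Fin r → ℚ) :=
  {a | (∀ j, (a j : ℝ) ∈ K ∧ |((a j).num : ℝ)| ≤ T ∧ ((a j).den : ℝ) ≤ T) ∧
    ∃ β : ℝ, (∏ j, Real.Gamma (a j)) ^ 2 = β * Real.pi ^ r ∧
      ∃ q : Polynomial ℤ, q ≠ 0 ∧ q.natDegree ≤ δ ∧ (∀ i, |((q.coeff i : ℤ) : ℝ)| ≤ T ^ A) ∧
        Polynomial.aeval β q = 0}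

theorem part1 (k : Type) [Field k] [NumberField k] (σ : k →+* ℂ) (n p r d : ℕ) (hn : 1 ≤ n)
    (α γ : Fin p → ℝ) (lam : Fin r → ℝ) (hα : ∀ i, 0 < α i)
    (hN : ∀ (m : Fin p → ℤ) (c : Fin r → ℤ), ∑ i, (m i : ℝ) * α i = 0 →
      ∑ i, (m i : ℝ) * (α i * Real.log (α i)) + ∑ l, (c l : ℝ) * lam l = 0 → m = 0 ∧ c = 0)
    (K : Fin n → Set ℂ) (hK : ∀ j, IsCompact (K j))
    (hKs : ∀ j, ∀ z ∈ K j, ∀ i, ∀ m : ℕ, (α i : ℂ) * z + γ i ≠ -m)
    (A ε : ℝ) (hε : 0 < ε) :
    ∃ (D : ℕ) (B C : ℝ), ∀ T : ℝ, 1 ≤ T →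
      (∃ Φ : Finset (MvPolynomial (Fin n) k), (Φ.card : ℝ) ≤ C * T ^ ε ∧ (∀ R ∈ Φ, R ≠ 0 ∧ R.totalDegree ≤ D) ∧
        ∀ x ∈ Exceptional σ d α γ lam K A B T, ∃ R ∈ Φ, MvPolynomial.eval x R = 0) ∧
      (Exceptional σ d α γ lam K A B T).Finite ∧
      ((Exceptional σ d α γ lam K A B T).ncard : ℝ) ≤
        C * T ^ ε * ({x : k | Height.mulHeight₁ x ≤ T}.ncard : ℝ) ^ (n - 1) := by
  obtain ⟨D, B, C, h⟩ := Pool.Agent.Y627.KW.main σ n d hn
    (fun _ : Fin n => Pool.Agent.Y627.KW.cg α γ lam) (fun _ => Pool.Agent.Y627.KW.Sg α γ) K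
    (fun _ => Pool.Agent.Y627.KW.Sg_pre α γ hα) hK (fun j z hz => hKs j z hz)
    (fun _ w => Pool.Agent.Y627.KW.cg_an α γ lam w) (fun _ => Pool.Agent.Y627.KW.cg_indep α γ lam hα hN) A ε hε
  refine ⟨D, B, C, fun T hT => ?_⟩
  have hset : Exceptional σ d α γ lam K A B T = Pool.Agent.Y627.KW.ExcW σ d
      (fun _ : Fin n => Pool.Agent.Y627.KW.cg α γ lam) K A B T := by
    have heq : ∀ x : Fin n → k, numbers σ α γ lam x = Pool.Agent.Y627.KW.numW σ
        (fun _ : Fin n => Pool.Agent.Y627.KW.cg α γ lam) x := by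
      intro x
      funext i
      rcases i with _ | ⟨j, i | l⟩
      · rfl
      · rfl
      · rfl
    ext x
    simp only [Exceptional, Pool.Agent.Y627.KW.ExcW, Set.mem_ofPred_eq, heq]
  rw [hset]
  exact h T hT

/-- the number of rational numbers of height at most `T` -/
theorem card_rat (T : ℝ) (hT : 1 ≤ T) : ({x : ℚ | Height.mulHeight₁ x ≤ T}.ncard : ℝ) ≤ 3 * T ^ (2 : ℝ) := by
  classical
  set N := ⌊T⌋₊ with hN
  have hNT : (N : ℝ) ≤ T := Nat.floor_le (by linarith)
  have hsub : {x : ℚ | Height.mulHeight₁ x ≤ T} ⊆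
      ((Finset.Icc (-(N : ℤ)) N ×ˢ Finset.Icc 1 N).image fun p : ℤ × ℕ => (p.1 : ℚ) / p.2 : Finset ℚ) := by
    intro x hx
    have hx' : Height.mulHeight₁ x ≤ T := hx
    rw [Rat.mulHeight₁_eq_max] at hx'
    have h1 : (x.num.natAbs : ℕ) ≤ N ∧ x.den ≤ N := by
      have h2 : ((max x.num.natAbs x.den : ℕ) : ℝ) ≤ T := by exact_mod_cast hx'
      have h3 := Nat.le_floor h2
      exact ⟨(le_max_left _ _).trans h3, (le_max_right _ _).trans h3⟩
    rw [Finset.mem_coe, Finset.mem_image]
    refine ⟨(x.num, x.den), ?_, ?_⟩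
    · rw [Finset.mem_product, Finset.mem_Icc, Finset.mem_Icc]
      have := x.den_pos
      refine ⟨⟨?_, ?_⟩, this, h1.2⟩ <;> omega
    · exact x.num_div_den
  have h1 := Set.ncard_le_ncard hsub (Finset.finite_toSet _)
  rw [Set.ncard_coe_finset] at h1
  have h2 : ({x : ℚ | Height.mulHeight₁ x ≤ T}.ncard) ≤ (2 * N + 1) * N := by
    refine h1.trans (Finset.card_image_le.trans ?_)
    rw [Finset.card_product, Nat.card_Icc, Int.card_Icc]
    have e : ((N : ℤ) + 1 - -(N : ℤ)).toNat = 2 * N + 1 := by omega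
    rw [e, Nat.add_sub_cancel]
  have h3 : ({x : ℚ | Height.mulHeight₁ x ≤ T}.ncard : ℝ) ≤ (2 * N + 1) * N := by exact_mod_cast h2
  refine h3.trans ?_
  rw [Real.rpow_two]
  have h4 : (0 : ℝ) ≤ N := Nat.cast_nonneg N
  nlinarith

theorem part2 (r δ : ℕ) (hr : 1 ≤ r) (K : Set ℝ) (hK : IsCompact K) (hKs : ∀ t ∈ K, ∀ m : ℕ, t ≠ -m)
    (A ε : ℝ) (hA : 0 ≤ A) (hε : 0 < ε) :
    ∃ C : ℝ, ∀ T : ℝ, 1 ≤ T → (ProductTuples r δ K A T).Finite ∧
      ((ProductTuples r δ K A T).ncard : ℝ) ≤ C * T ^ (2 * ((r : ℝ) - 1) + ε) := by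
  classical
  set σ : ℚ →+* ℂ := algebraMap ℚ ℂ with hσ
  let α : Fin 1 → ℝ := fun _ => 1
  let γ : Fin 1 → ℝ := fun _ => 0
  let lam : Fin 0 → ℝ := fun l => l.elim0
  obtain ⟨D, B, C, h⟩ := part1 ℚ σ r 1 0 ((r + 2) * δ) hr α γ lam (fun _ => one_pos) (by
    intro m c h1 _
    refine ⟨?_, funext fun l => l.elim0⟩
    funext i
    rw [Fin.sum_univ_one] at h1
    have h2 : (m 0 : ℝ) = 0 := by simpa [α] using h1
    rw [Subsingleton.elim i 0]
    exact_mod_cast h2) (fun _ : Fin r => (fun t : ℝ => (t : ℂ)) '' K) (fun _ => hK.image Complex.continuous_ofReal) (by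
    rintro j z ⟨t, ht, rfl⟩ i m h1
    apply hKs t ht m
    simp only [α, γ, Complex.ofReal_one, one_mul, Complex.ofReal_zero, add_zero] at h1
    exact_mod_cast h1) A ε hε
  refine ⟨C * 3 ^ (r - 1), fun T hT => ?_⟩
  have hTp : 0 < T := by linarith
  obtain ⟨-, hfin, hcard⟩ := h T hT
  -- every product tuple is exceptional
  have hsub : ProductTuples r δ K A T ⊆
      Exceptional σ ((r + 2) * δ) α γ lam (fun _ : Fin r => (fun t : ℝ => (t : ℂ)) '' K) A B T := by
    rintro a ⟨ha, β, hβ, q, hq0, hqd, hqc, hqβ⟩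
    refine ⟨fun j => ⟨⟨(a j : ℝ), (ha j).1, ?_⟩, ?_⟩, ?_⟩
    · simp [hσ]
    · rw [Rat.mulHeight₁_eq_max]
      have h1 := (ha j).2.1
      have h2 := (ha j).2.2
      push_cast
      refine max_le ?_ h2
      rw [Nat.cast_natAbs, Int.cast_abs]
      exact h1
    · -- the exponents
      let ex : ℕ → (Option (Fin r × (Fin 1 ⊕ Fin 0)) →₀ ℕ) := fun i =>
        Finsupp.equivFunOnFinite.symm fun w => w.elim (r * (δ - i)) fun _ => 2 * i
      have hex : ∀ i i', ex i = ex i' → i = i' := by
        intro i i' he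
        have h1 := DFunLike.congr_fun he (some (⟨0, hr⟩, Sum.inl 0))
        simp only [ex, Finsupp.equivFunOnFinite_symm_apply_apply, Option.elim_some] at h1
        omega
      let P : MvPolynomial (Option (Fin r × (Fin 1 ⊕ Fin 0))) ℚ :=
        ∑ i ∈ Finset.range (δ + 1), MvPolynomial.monomial (ex i) ((q.coeff i : ℤ) : ℚ)
      have hcoef : ∀ e, MvPolynomial.coeff e P = 0 ∨
          ∃ i ∈ Finset.range (δ + 1), e = ex i ∧ MvPolynomial.coeff e P = ((q.coeff i : ℤ) : ℚ) := by
        intro e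
        by_cases he : ∃ i ∈ Finset.range (δ + 1), e = ex i
        · right
          obtain ⟨i, hi, rfl⟩ := he
          refine ⟨i, hi, rfl, ?_⟩
          simp only [P, MvPolynomial.coeff_sum, MvPolynomial.coeff_monomial]
          rw [Finset.sum_eq_single i]
          · rw [if_pos rfl]
          · intro i' _ hne
            rw [if_neg fun h => hne (hex _ _ h)]
          · intro h
            exact absurd hi h
        · left
          push Not at he
          simp only [P, MvPolynomial.coeff_sum, MvPolynomial.coeff_monomial]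
          refine Finset.sum_eq_zero fun i hi => ?_
          rw [if_neg fun h => he i hi h.symm]
      refine ⟨P, ?_, ?_, ?_, ?_⟩
      · intro hP0
        apply hq0
        ext i
        by_cases hi : i ∈ Finset.range (δ + 1)
        · have h1 : MvPolynomial.coeff (ex i) P = ((q.coeff i : ℤ) : ℚ) := by
            simp only [P, MvPolynomial.coeff_sum, MvPolynomial.coeff_monomial]
            rw [Finset.sum_eq_single i]
            · rw [if_pos rfl]
            · intro i' _ hne
              rw [if_neg fun h => hne (hex _ _ h)]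
            · intro h
              exact absurd hi h
          rw [hP0, MvPolynomial.coeff_zero] at h1
          rw [Polynomial.coeff_zero]
          exact_mod_cast h1.symm
        · rw [Polynomial.coeff_zero]
          apply Polynomial.coeff_eq_zero_of_natDegree_lt
          rw [Finset.mem_range] at hi
          omega
      · intro w
        rw [MvPolynomial.degreeOf_le_iff]
        intro e he
        rcases hcoef e with h0 | ⟨i, hi, rfl, -⟩
        · exact absurd h0 (MvPolynomial.mem_support_iff.1 he)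
        · rw [Finset.mem_range] at hi
          have hi' : i ≤ δ := by omega
          cases w with
          | none =>
            simp only [ex, Finsupp.equivFunOnFinite_symm_apply_apply, Option.elim_none]
            exact Nat.mul_le_mul (by omega) (Nat.sub_le _ _)
          | some w =>
            simp only [ex, Finsupp.equivFunOnFinite_symm_apply_apply, Option.elim_some]
            exact Nat.mul_le_mul (by omega) hi'
      · intro e
        rcases hcoef e with h0 | ⟨i, -, -, h1⟩
        · rw [h0, Height.mulHeight₁_zero]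
          exact Real.one_le_rpow hT hA
        · rw [h1, Rat.mulHeight₁_eq_max]
          simp only [Rat.num_intCast, Rat.den_intCast]
          push_cast
          refine max_le ?_ (Real.one_le_rpow hT hA)
          rw [Nat.cast_natAbs, Int.cast_abs]
          exact hqc i
      · have hval : MvPolynomial.eval₂ σ (numbers σ α γ lam a) P = 0 := by
          have h1 : MvPolynomial.eval₂ σ (numbers σ α γ lam a) P =
              ∑ i ∈ Finset.range (δ + 1), ((q.coeff i : ℤ) : ℂ) *
                ((Real.pi : ℂ) ^ (r * (δ - i)) * ((∏ j, Real.Gamma (a j) : ℝ) : ℂ) ^ (2 * i)) := by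
            rw [← MvPolynomial.coe_eval₂Hom, map_sum]
            refine Finset.sum_congr rfl fun i _ => ?_
            rw [MvPolynomial.coe_eval₂Hom, MvPolynomial.eval₂_monomial, Finsupp.prod_fintype _ _ (fun _ => pow_zero _),
              map_intCast, Fintype.prod_option]
            congr 2
            rw [Fintype.prod_prod_type]
            push_cast
            rw [← Finset.prod_pow]
            refine Finset.prod_congr rfl fun j _ => ?_
            rw [Fintype.prod_sum_type, Fin.prod_univ_one, Finset.univ_eq_empty, Finset.prod_empty, mul_one]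
            simp only [ex, Finsupp.equivFunOnFinite_symm_apply_apply, Option.elim_some, numbers, α, γ,
              Complex.ofReal_one, one_mul, Complex.ofReal_zero, add_zero]
            rw [← Complex.Gamma_ofReal]
            simp [hσ]
          have hpi : (Real.pi : ℂ) ≠ 0 := by exact_mod_cast Real.pi_ne_zero
          have hβ' : ((∏ j, Real.Gamma (a j) : ℝ) : ℂ) ^ 2 = (β : ℂ) * (Real.pi : ℂ) ^ r := by
            exact_mod_cast hβ
          have h2 : ∀ i ∈ Finset.range (δ + 1), ((q.coeff i : ℤ) : ℂ) *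
                ((Real.pi : ℂ) ^ (r * (δ - i)) * ((∏ j, Real.Gamma (a j) : ℝ) : ℂ) ^ (2 * i)) =
              (Real.pi : ℂ) ^ (r * δ) * (((q.coeff i : ℤ) : ℂ) * (β : ℂ) ^ i) := by
            intro i hi
            rw [Finset.mem_range] at hi
            rw [pow_mul _ 2 i, hβ', mul_pow, ← pow_mul (Real.pi : ℂ) r i]
            have h3 : (Real.pi : ℂ) ^ (r * δ) = (Real.pi : ℂ) ^ (r * (δ - i)) * (Real.pi : ℂ) ^ (r * i) := by
              rw [← pow_add, ← Nat.mul_add, Nat.sub_add_cancel (by omega)]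
            rw [h3]
            ring
          rw [h1, Finset.sum_congr rfl h2, ← Finset.mul_sum]
          have h4 : ∑ i ∈ Finset.range (δ + 1), ((q.coeff i : ℤ) : ℂ) * (β : ℂ) ^ i = 0 := by
            have h5 : Polynomial.aeval (β : ℂ) q = 0 := by
              have h6 := Polynomial.aeval_algebraMap_apply ℂ β q
              rw [hqβ, map_zero] at h6
              exact h6
            rw [Polynomial.aeval_eq_sum_range' (show q.natDegree < δ + 1 by omega)] at h5
            rw [← h5]
            refine Finset.sum_congr rfl fun i _ => ?_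
            rw [zsmul_eq_mul]
          rw [h4, mul_zero]
        rw [hval, norm_zero]
        positivity
  refine ⟨hfin.subset hsub, ?_⟩
  have h1 : ((ProductTuples r δ K A T).ncard : ℝ) ≤
      ((Exceptional σ ((r + 2) * δ) α γ lam (fun _ : Fin r => (fun t : ℝ => (t : ℂ)) '' K) A B T).ncard : ℝ) := by
    exact_mod_cast Set.ncard_le_ncard hsub hfin
  refine h1.trans (hcard.trans ?_)
  have hC : 0 ≤ C * T ^ ε := by
    by_contra hneg
    push Not at hneg
    have h5 := (Nat.cast_nonneg (α := ℝ) _).trans hcard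
    have hpos : 0 < ({x : ℚ | Height.mulHeight₁ x ≤ T}.ncard : ℝ) ^ (r - 1) := by
      refine pow_pos ?_ _
      have hfinN : ({x : ℚ | Height.mulHeight₁ x ≤ T}).Finite := by
        have := (Pool.Agent.Y771.KF.FT ℚ T).finite_toSet
        refine this.subset ?_
        intro x hx
        exact Finset.mem_coe.2 (Pool.Agent.Y771.KF.mem_FT.2 hx)
      have hne : ({x : ℚ | Height.mulHeight₁ x ≤ T}).Nonempty := ⟨1, by
        show Height.mulHeight₁ (1 : ℚ) ≤ T
        rw [Height.mulHeight₁_one]
        exact hT⟩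
      exact_mod_cast (Set.ncard_pos hfinN).2 hne
    have := mul_neg_of_neg_of_pos hneg hpos
    linarith
  calc C * T ^ ε * ({x : ℚ | Height.mulHeight₁ x ≤ T}.ncard : ℝ) ^ (r - 1)
      ≤ C * T ^ ε * (3 * T ^ (2 : ℝ)) ^ (r - 1) := by
        refine mul_le_mul_of_nonneg_left ?_ hC
        exact pow_le_pow_left₀ (Nat.cast_nonneg _) (card_rat T hT) _
    _ = C * 3 ^ (r - 1) * T ^ (2 * ((r : ℝ) - 1) + ε) := by
        rw [mul_pow, ← Real.rpow_natCast (T ^ (2 : ℝ)), ← Real.rpow_mul hTp.le, Nat.cast_sub hr, Nat.cast_one,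
          Real.rpow_add hTp]
        ring

/-- (1) Let `k` be a number field with an embedding `σ` in `ℂ`, `n ≥ 1`, let `α_i > 0`, `γ_i`, `λ_l` be as above and let
`K_1, …, K_n` be compact subsets of `ℂ` on which no `α_i z + γ_i` is a pole of `Γ`. For all `d`, `A` and `ε > 0` there
are `D`, `B` and `C` such that for all `T ≥ 1` the exceptional `n`-tuples are zeros of at most `C T ^ ε` nonzero
polynomials of degree at most `D`, and their number is at most `C T ^ ε N (T) ^ (n - 1)`, where `N (T)` is the number of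
elements of `k` of height at most `T`.
(2) Let `r ≥ 1`, let `K` be a compact set of real numbers without non-positive integers, `δ`, `A ≥ 0` and `ε > 0`. There
is `C` such that for all `T ≥ 1` there are at most `C T ^ (2 (r - 1) + ε)` product tuples. -/
theorem result :
    (∀ (k : Type) [Field k] [NumberField k] (σ : k →+* ℂ) (n p r d : ℕ), 1 ≤ n →
      ∀ (α γ : Fin p → ℝ) (lam : Fin r → ℝ), (∀ i, 0 < α i) →
      (∀ (m : Fin p → ℤ) (c : Fin r → ℤ), ∑ i, (m i : ℝ) * α i = 0 →
        ∑ i, (m i : ℝ) * (α i * Real.log (α i)) + ∑ l, (c l : ℝ) * lam l = 0 → m = 0 ∧ c = 0) →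
      ∀ K : Fin n → Set ℂ, (∀ j, IsCompact (K j)) →
      (∀ j, ∀ z ∈ K j, ∀ i, ∀ m : ℕ, (α i : ℂ) * z + γ i ≠ -m) → ∀ A ε : ℝ, 0 < ε →
      ∃ (D : ℕ) (B C : ℝ), ∀ T : ℝ, 1 ≤ T →
        (∃ Φ : Finset (MvPolynomial (Fin n) k), (Φ.card : ℝ) ≤ C * T ^ ε ∧
          (∀ R ∈ Φ, R ≠ 0 ∧ R.totalDegree ≤ D) ∧
          ∀ x ∈ Exceptional σ d α γ lam K A B T, ∃ R ∈ Φ, MvPolynomial.eval x R = 0) ∧
        (Exceptional σ d α γ lam K A B T).Finite ∧
        ((Exceptional σ d α γ lam K A B T).ncard : ℝ) ≤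
          C * T ^ ε * ({x : k | Height.mulHeight₁ x ≤ T}.ncard : ℝ) ^ (n - 1)) ∧
    (∀ (r δ : ℕ), 1 ≤ r → ∀ K : Set ℝ, IsCompact K → (∀ t ∈ K, ∀ m : ℕ, t ≠ -m) → ∀ A ε : ℝ, 0 ≤ A → 0 < ε →
      ∃ C : ℝ, ∀ T : ℝ, 1 ≤ T → (ProductTuples r δ K A T).Finite ∧
        ((ProductTuples r δ K A T).ncard : ℝ) ≤ C * T ^ (2 * ((r : ℝ) - 1) + ε)) :=
  ⟨fun k _ _ σ n p r d hn α γ lam hα hN K hK hKs A ε hε => part1 k σ n p r d hn α γ lam hα hN K hK hKs A ε hε,
    fun r δ hr K hK hKs A ε hA hε => part2 r δ hr K hK hKs A ε hA hε⟩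

end Pool.Agent.Results.MP_c2409d_nt.GammaTuples
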