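import Pool.Agent.Y456.RL.Roh

/-!
# Rohrlich's conjecture at almost all points of every rational line

Let `c_1, …, c_r` be nonzero integers and `b_1, …, b_r` rational numbers. We consider the products
`Γ(c_1 x + b_1) ⋯ Γ(c_r x + b_r)` for rational `x`, that is, the rational points of an arbitrary rational line of
`ℚ ^ r` none of whose coordinates is constant. Here the multiplication formulas and the reflection formula produce lines
at all of whose points (without integral coordinates) the identity of Rohrlich's conjecture holds and the product is an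
algebraic multiple of `π ^ (r / 2)`.

(1) In bounded degree and polynomially bounded height the open direction of the conjecture holds for all but `C T ^ ε`
of the rational points `x` of height at most `T` of each line: if the product is `β π ^ (r / 2)` with `β` algebraic of
degree at most `δ` and height at most `T ^ A`, then the identity on fractional parts holds.

(2) More generally let `P_l(x) = ∏ Γ(c_i x + b_i) ^ κ_(l i)` be products such that for every nonzero integer vector `e`
the identity that Rohrlich's conjecture attaches to the product `∏ P_l ^ e_l` fails for at least one rational `x`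
without integral arguments. Then the numbers `P_l(x_j)` satisfy no relation of bounded degree and of height at most
`T ^ A` at almost all `n`-tuples `(x_j)` of points of height at most `T` of any number field, not even approximately and
relative to arbitrary complex constants.

Proof. Let `[α]`, `α ∈ ℚ / ℤ`, be the basis of the group ring of `ℚ / ℤ`. The functions `P_l` satisfy
`P_l(z + 1) = A_l(z) P_l(z)` with rational functions `A_l`, and the zeros and poles of `A_l` modulo `ℤ` are given by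
`D_l = ∑_i κ_(l i) sgn(c_i) ∑_(c_i α + b_i = 0) [α]`. If the `D_l` are linearly independent, no nontrivial product of the
`A_l` is of the form `u(z + 1) / u(z)` with `u` rational, and the `P_l` are algebraically independent over `ℂ (z)`. On the
other hand the distribution relation for the first Bernoulli function shows that
`∑_i κ_(l i) ({c_i x + b_i} - 1/2) = ∑_α D_l(α) ({x - α} - 1/2)`, so that the identity holds if `D_l = 0`. The counting
theorem is due to helper124 of this pool.
-/

set_option autoImplicit false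

open NumberField

namespace Pool.Agent.Results.MP_c2409d_nt.RationalLines

/-- The identity of Rohrlich's conjecture for the rational numbers `a_1, …, a_r`. -/
def Identity {r : ℕ} (a : Fin r → ℚ) : Prop :=
  ∀ D : ℕ, 2 ≤ D → (∀ i, ∃ k : ℤ, (D : ℚ) * a i = k) → ∀ m : ℕ, 1 ≤ m → m ≤ D - 1 → m.Coprime D →
    ∑ i, Int.fract ((m : ℚ) * a i) = (r : ℚ) / 2

/-- `Γ(a_1) ⋯ Γ(a_r) = β π ^ (r / 2)`, where `β` is a root of a nonzero integer polynomial of degree at most `δ` whose
coefficients have absolute value at most `H`. -/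
def AlgebraicMultiple {r : ℕ} (a : Fin r → ℚ) (δ : ℕ) (H : ℝ) : Prop :=
  ∃ β : ℝ, ∏ i, Real.Gamma (a i) = β * Real.pi ^ ((r : ℝ) / 2) ∧
    ∃ q : Polynomial ℤ, q ≠ 0 ∧ q.natDegree ≤ δ ∧ (∀ k, |((q.coeff k : ℤ) : ℝ)| ≤ H) ∧ Polynomial.aeval β q = 0

/-- The products `∏_i Γ(c_i z_j + b_i) ^ κ_(l i)`, index `(j, l)`. -/
noncomputable def products {n p s : ℕ} (c : Fin p → ℤ) (b : Fin p → ℚ) (κ : Fin s → Fin p → ℤ) (z : Fin n → ℂ)
    (y : Fin n × Fin s) : ℂ :=
  ∏ i, Complex.Gamma (c i * z y.1 + b i) ^ κ y.2 i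

/-- The elements of the number field `F` with image in `L` which are quotients of two integers of `F` all of whose
conjugates have absolute value at most `T`. -/
def Points (F : Type) [Field F] [NumberField F] (ι : F →+* ℂ) (L : Set ℂ) (T : ℝ) : Set F :=
  {x | ι x ∈ L ∧ ∃ a b : 𝓞 F, b ≠ 0 ∧ (∀ φ : F →+* ℂ, ‖φ a‖ ≤ T ∧ ‖φ b‖ ≤ T) ∧ x = a / b}

/-- The `n`-tuples `x` of points of `F` for which there is a polynomial `P` of degree at most `d` in each of `n s`
variables, with coefficients of the form `∑ ξ_i ι(c_i)`, where the `c_i` are integers of `F` all of whose conjugates have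
absolute value at most `T ^ A`, such that the value of `P` at the numbers `products` is at most `T ^ (-B)` times the
absolute value of some nonzero coefficient of `P`. -/
def Exceptional (n d : ℕ) {p s g : ℕ} (c : Fin p → ℤ) (b : Fin p → ℚ) (κ : Fin s → Fin p → ℤ) (F : Type) [Field F]
    [NumberField F] (ι : F →+* ℂ) (ξ : Fin g → ℂ) (L : Set ℂ) (A B T : ℝ) : Set (Fin n → F) :=
  {x | (∀ j, x j ∈ Points F ι L T) ∧ ∃ P : MvPolynomial (Fin n × Fin s) ℂ, (∀ z, P.degreeOf z ≤ d) ∧
    (∀ e, ∃ c : Fin g → 𝓞 F, (∀ i (φ : F →+* ℂ), ‖φ (c i)‖ ≤ T ^ A) ∧ P.coeff e = ∑ i, ξ i * ι (c i)) ∧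
    ∃ e₀, P.coeff e₀ ≠ 0 ∧
      ‖MvPolynomial.aeval (products c b κ fun j => ι (x j)) P‖ ≤ T ^ (-B) * ‖P.coeff e₀‖}

theorem part2 (p s : ℕ) (c : Fin p → ℤ) (hc : ∀ i, c i ≠ 0) (b : Fin p → ℚ) (κ : Fin s → Fin p → ℤ)
    (hκ : ∀ e : Fin s → ℤ, e ≠ 0 → ∃ x : ℚ, (∀ i, ∀ n : ℤ, (c i : ℚ) * x + b i ≠ n) ∧
      ∑ l, (e l : ℚ) * ∑ i, (κ l i : ℚ) * (Int.fract ((c i : ℚ) * x + b i) - 1 / 2) ≠ 0)
    (m n g d : ℕ) (L : Set ℂ) (hL : IsCompact L) (hL' : ∀ z ∈ L, ∀ i, ∀ k : ℕ, (c i : ℂ) * z + b i ≠ -k)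
    (A ε : ℝ) (hε : 0 < ε) :
    ∃ B C T₀ : ℝ, ∀ (F : Type) [Field F] [NumberField F], Module.finrank ℚ F ≤ m → ∀ (ι : F →+* ℂ) (ξ : Fin g → ℂ)
      (T : ℝ), T₀ ≤ T → (Exceptional n d c b κ F ι ξ L A B T).Finite ∧
        ((Exceptional n d c b κ F ι ξ L A B T).ncard : ℝ) ≤ C * T ^ ε * ((Points F ι L T).ncard : ℝ) ^ (n - 1) := by
  classical
  have hκ' : Y456.RL.IndOrd c b hc κ := by
    intro e he
    by_contra hne
    obtain ⟨x, hx, h1⟩ := hκ e hne
    apply h1
    have h2 := Y456.RL.frac_zero c b hc (fun i => ∑ l, e l * κ l i) ?_ x hx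
    · rw [← h2]
      simp only [Finset.mul_sum]
      rw [Finset.sum_comm]
      refine Finset.sum_congr rfl fun i _ => ?_
      push_cast
      rw [Finset.sum_mul]
      refine Finset.sum_congr rfl fun l _ => ?_
      ring
    · intro α
      refine Eq.trans ?_ (he α)
      simp only [Y456.RL.ord_rat, Finset.mul_sum, Finset.sum_mul]
      rw [Finset.sum_comm]
      refine Finset.sum_congr rfl fun l _ => Finset.sum_congr rfl fun i _ => ?_
      ring
  obtain ⟨B, C, T₀, hC, hT₀, H⟩ := Y456.RL.main c b hc κ (h := Fin g) hκ' m n d L hL hL' A ε hε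
  refine ⟨B, C, T₀, fun F _ _ hF ι ξ T hT => ?_⟩
  have hT0 : 0 ≤ T := by linarith
  have hP : Points F ι L T = {x : F | Y120.HtLe F T x ∧ ι x ∈ L} := by
    ext x
    constructor
    · rintro ⟨h1, a, b, hb, hab, hx⟩
      exact ⟨⟨a, b, hb, Y120.house_le F hT0 fun φ => (hab φ).1, Y120.house_le F hT0 fun φ => (hab φ).2, hx⟩, h1⟩
    · rintro ⟨⟨a, b, hb, ha, hb', hx⟩, h1⟩
      exact ⟨h1, a, b, hb, fun φ => ⟨(Y120.house_ge F _ φ).trans ha, (Y120.house_ge F _ φ).trans hb'⟩, hx⟩
  have hsub : Exceptional n d c b κ F ι ξ L A B T ⊆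
      Y124.ExcNF n d F ι ξ (fun t (l : Fin s) => Y456.RL.P c b (κ l) t) L A B T := by
    rintro x ⟨hx, P, hPd, hPc, e₀, he₀, he⟩
    refine ⟨fun j => ?_, P, hPd, hPc, e₀, he₀, he⟩
    have h1 := hx j
    rw [hP] at h1
    exact h1
  obtain ⟨h1, h2⟩ := H F hF ι ξ T hT
  refine ⟨h1.subset hsub, ?_⟩
  rw [hP]
  exact le_trans (by exact_mod_cast Set.ncard_le_ncard hsub h1) h2

/-- The rational points `x` of `L` of height at most `T` at which the product is an algebraic multiple of `π ^ (r / 2)`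
of bounded complexity, while the identity fails. -/
def Failures {r : ℕ} (c : Fin r → ℤ) (b : Fin r → ℚ) (δ : ℕ) (L : Set ℝ) (A T : ℝ) : Set ℚ :=
  {x | (x : ℝ) ∈ L ∧ |(x.num : ℝ)| ≤ T ∧ (x.den : ℝ) ≤ T ∧ AlgebraicMultiple (fun i => c i * x + b i) δ (T ^ A) ∧
    ¬ Identity fun i => c i * x + b i}

theorem integral_finite {r : ℕ} (c : Fin r → ℤ) (hc : ∀ i, c i ≠ 0) (b : Fin r → ℚ) (L : Set ℝ) (hL : IsCompact L) :
    {x : ℚ | (x : ℝ) ∈ L ∧ ∃ i, ∃ n : ℤ, (c i : ℚ) * x + b i = n}.Finite := by
  obtain ⟨R, hR⟩ := hL.isBounded.exists_norm_le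
  have h1 : {x : ℚ | (x : ℝ) ∈ L ∧ ∃ i, ∃ n : ℤ, (c i : ℚ) * x + b i = n} ⊆
      ⋃ i : Fin r, (fun n : ℤ => ((n : ℚ) - b i) / c i) '' (Set.Icc (-⌈|(c i : ℝ)| * R + |(b i : ℝ)|⌉) ⌈|(c i : ℝ)| * R + |(b i : ℝ)|⌉) := by
    rintro x ⟨hx, i, n, hn⟩
    rw [Set.mem_iUnion]
    refine ⟨i, n, ?_, ?_⟩
    · have h2 : |(n : ℝ)| ≤ |(c i : ℝ)| * R + |(b i : ℝ)| := by
        have h3 : (n : ℝ) = (c i : ℝ) * x + b i := by exact_mod_cast congrArg (Rat.cast : ℚ → ℝ) hn.symm
        rw [h3]
        refine (abs_add_le _ _).trans ?_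
        rw [abs_mul]
        have h4 : |(x : ℝ)| ≤ R := by rw [← Real.norm_eq_abs]; exact hR x hx
        nlinarith [abs_nonneg (c i : ℝ)]
      have h5 := abs_le.1 (h2.trans (Int.le_ceil _))
      exact ⟨by exact_mod_cast h5.1, by exact_mod_cast h5.2⟩
    · have h3 : (c i : ℚ) ≠ 0 := Int.cast_ne_zero.2 (hc i)
      change ((n : ℚ) - b i) / c i = x
      rw [div_eq_iff h3, ← hn]
      ring
  exact (Set.finite_iUnion fun i => (Set.finite_Icc _ _).image _).subset h1

theorem part1 (r : ℕ) (c : Fin r → ℤ) (hc : ∀ i, c i ≠ 0) (b : Fin r → ℚ) (δ : ℕ) (L : Set ℝ) (hL : IsCompact L)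
    (hL' : ∀ x ∈ L, ∀ i, ∀ k : ℕ, (c i : ℝ) * x + b i ≠ -k) (A ε : ℝ) (hε : 0 < ε) :
    ∃ C T₀ : ℝ, ∀ T : ℝ, T₀ ≤ T → (Failures c b δ L A T).Finite ∧
      ((Failures c b δ L A T).ncard : ℝ) ≤ C * T ^ ε := by
  classical
  by_cases hG : ∀ α : ℚ, ∑ i, (1 : ℤ) * (if ∃ w : ℤ, (c i : ℚ) * α + b i = w then Int.sign (c i) else 0) = 0
  · -- the identity holds at all points without integral arguments
    have hfin := integral_finite c hc b L hL
    refine ⟨({x : ℚ | (x : ℝ) ∈ L ∧ ∃ i, ∃ n : ℤ, (c i : ℚ) * x + b i = n}.ncard : ℝ), 1, fun T hT => ?_⟩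
    have hsub : Failures c b δ L A T ⊆ {x : ℚ | (x : ℝ) ∈ L ∧ ∃ i, ∃ n : ℤ, (c i : ℚ) * x + b i = n} := by
      rintro x ⟨hx, -, -, -, hI⟩
      refine ⟨hx, ?_⟩
      by_contra hcon
      push Not at hcon
      apply hI
      intro D hD hDx m hm1 hm2 hm
      have h1 := Y456.RL.transfer c b hc (fun _ => 1) hG x hcon D (by omega) hDx m hm
      simp only [Int.cast_one, one_mul, Finset.sum_sub_distrib, Finset.sum_const, Finset.card_univ, Fintype.card_fin,
        nsmul_eq_mul] at h1
      linarith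
    refine ⟨hfin.subset hsub, ?_⟩
    have h2 : ((Failures c b δ L A T).ncard : ℝ) ≤
        ({x : ℚ | (x : ℝ) ∈ L ∧ ∃ i, ∃ n : ℤ, (c i : ℚ) * x + b i = n}.ncard : ℝ) := by
      exact_mod_cast Set.ncard_le_ncard hsub hfin
    refine h2.trans ?_
    exact le_mul_of_one_le_right (Nat.cast_nonneg _) (Real.one_le_rpow hT hε.le)
  · push Not at hG
    obtain ⟨α, hα⟩ := hG
    have hκ' : Y456.RL.IndOrd c b hc (fun _ : Unit => fun _ => (1 : ℤ)) := by
      apply Y456.RL.ind_one c b hc _ α
      rw [Y456.RL.ord_rat]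
      exact hα
    obtain ⟨B, C, T₀, hC, hT₀, H⟩ := Y456.RL.main c b hc (fun _ : Unit => fun _ => (1 : ℤ)) (h := Fin (δ + 1)) hκ' 1 1 δ
      ((fun t : ℝ => (t : ℂ)) '' L) (hL.image Complex.continuous_ofReal) (by
        rintro z ⟨t, ht, rfl⟩ i k h
        apply hL' t ht i k
        have : (((c i : ℝ) * t + b i : ℝ) : ℂ) = ((-k : ℝ) : ℂ) := by
          push_cast
          exact h
        exact_mod_cast this) A ε hε
    refine ⟨C, T₀, fun T hT => ?_⟩
    have hT0 : 0 < T := by linarith
    let ξ : Fin (δ + 1) → ℂ := fun k => (((Real.pi ^ ((r : ℝ) / 2)) ^ (k : ℕ))⁻¹ : ℝ)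
    obtain ⟨h1, h2⟩ := H ℚ (by simp) (algebraMap ℚ ℂ) ξ T hT
    rw [pow_zero, mul_one] at h2
    let j : ℚ → (Fin 1 → ℚ) := fun x _ => x
    have hj : Function.Injective j := fun x y h => congrFun h 0
    have hsub : j '' (Failures c b δ L A T) ⊆ Y124.ExcNF 1 δ ℚ (algebraMap ℚ ℂ) ξ
        (fun t (_ : Unit) => Y456.RL.P c b (fun _ => (1 : ℤ)) t) ((fun t : ℝ => (t : ℂ)) '' L) A B T := by
      rintro _ ⟨x, ⟨hx, hxn, hxd, ⟨β, hβ, q, hq0, hqd, hqc, hqβ⟩, -⟩, rfl⟩
      have hpi : (Real.pi ^ ((r : ℝ) / 2)) ≠ 0 := (Real.rpow_pos_of_pos Real.pi_pos _).ne'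
      refine ⟨fun _ => ⟨⟨(x.num : 𝓞 ℚ), (x.den : 𝓞 ℚ), ?_, ?_, ?_, ?_⟩, (x : ℝ), hx, ?_⟩, ?_⟩
      · exact_mod_cast x.den_nz
      · refine Y120.house_le ℚ hT0.le fun φ => ?_
        simpa using hxn
      · refine Y120.house_le ℚ hT0.le fun φ => ?_
        simpa using hxd
      · simpa [j] using (Rat.num_div_den x).symm
      · simp [j]
      · let P : MvPolynomial (Fin 1 × Unit) ℂ := ∑ k : Fin (δ + 1),
          MvPolynomial.monomial (Finsupp.single ((0 : Fin 1), ()) (k : ℕ)) (ξ k * ((q.coeff k : ℤ) : ℂ))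
        have hcoef : ∀ e, P.coeff e = ∑ k : Fin (δ + 1), ξ k *
            (algebraMap ℚ ℂ) (((if e = Finsupp.single ((0 : Fin 1), ()) (k : ℕ) then (q.coeff k : ℤ) else 0 : ℤ) : 𝓞 ℚ) : ℚ) := by
          intro e
          simp only [P, MvPolynomial.coeff_sum, MvPolynomial.coeff_monomial]
          refine Finset.sum_congr rfl fun k _ => ?_
          by_cases he : Finsupp.single ((0 : Fin 1), ()) (k : ℕ) = e
          · rw [if_pos he, if_pos he.symm]
            simp
          · rw [if_neg he, if_neg fun h => he h.symm]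
            simp
        refine ⟨P, ?_, ?_, ?_⟩
        · intro y
          refine (MvPolynomial.degreeOf_sum_le _ _ _).trans ?_
          refine Finset.sup_le fun k _ => ?_
          refine (MvPolynomial.degreeOf_le_iff).2 fun e he => ?_
          have h3 := MvPolynomial.support_monomial_subset he
          rw [Finset.mem_singleton] at h3
          rw [h3]
          have h4 := k.2
          rcases y with ⟨y, u⟩
          rw [Subsingleton.elim y 0, Finsupp.single_eq_same]
          omega
        · intro e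
          refine ⟨fun k => (((if e = Finsupp.single ((0 : Fin 1), ()) (k : ℕ) then (q.coeff k : ℤ) else 0 : ℤ)) : 𝓞 ℚ), ?_, hcoef e⟩
          intro k φ
          by_cases he : e = Finsupp.single ((0 : Fin 1), ()) (k : ℕ)
          · simp only [if_pos he]
            simpa using hqc k
          · simp only [if_neg he]
            simpa using Real.rpow_nonneg hT0.le A
        · have hk : ∃ k : Fin (δ + 1), q.coeff k ≠ 0 := by
            refine ⟨⟨q.natDegree, by omega⟩, ?_⟩
            exact Polynomial.leadingCoeff_ne_zero.2 hq0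
          obtain ⟨k, hk⟩ := hk
          refine ⟨Finsupp.single ((0 : Fin 1), ()) (k : ℕ), ?_, ?_⟩
          · rw [hcoef, Finset.sum_eq_single k]
            · rw [if_pos rfl]
              refine mul_ne_zero ?_ ?_
              · simp only [ξ]
                exact_mod_cast inv_ne_zero (pow_ne_zero _ hpi)
              · simpa using hk
            · intro k' _ hk'
              rw [if_neg]
              · simp
              · intro h
                have h5 := Finsupp.single_injective _ h
                exact hk' (Fin.ext h5.symm)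
            · intro h
              exact absurd (Finset.mem_univ k) h
          · have hval : MvPolynomial.aeval (fun y : Fin 1 × Unit => Y456.RL.P c b (fun _ => (1 : ℤ))
                ((algebraMap ℚ ℂ) (j x y.1))) P = 0 := by
              have h6 : Y456.RL.P c b (fun _ => (1 : ℤ)) ((algebraMap ℚ ℂ) x) =
                  ((β * Real.pi ^ ((r : ℝ) / 2) : ℝ) : ℂ) := by
                rw [← hβ, Y456.RL.P, Complex.ofReal_prod]
                refine Finset.prod_congr rfl fun i _ => ?_
                rw [zpow_one, ← Complex.Gamma_ofReal]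
                congr 1
                simp
              simp only [P, map_sum, MvPolynomial.aeval_monomial, j]
              have h7 : ∀ k : Fin (δ + 1), (algebraMap ℂ ℂ) (ξ k * ((q.coeff k : ℤ) : ℂ)) *
                  ((Finsupp.single ((0 : Fin 1), ()) (k : ℕ)).prod fun (y : Fin 1 × Unit) e =>
                    Y456.RL.P c b (fun _ => (1 : ℤ)) ((algebraMap ℚ ℂ) x) ^ e) =
                  (((q.coeff k : ℤ) : ℝ) * β ^ (k : ℕ) : ℝ) := by
                intro k
                rw [Finsupp.prod_single_index (by simp), h6]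
                simp only [ξ, Algebra.algebraMap_self, RingHom.id_apply]
                rw [← Complex.ofReal_intCast, ← Complex.ofReal_mul, ← Complex.ofReal_pow, ← Complex.ofReal_mul]
                congr 1
                rw [mul_pow]
                field_simp
              rw [Finset.sum_congr rfl fun k _ => h7 k, ← Complex.ofReal_sum, ← Complex.ofReal_zero]
              congr 1
              rw [← hqβ, Polynomial.aeval_eq_sum_range' (n := δ + 1) (by omega), Finset.sum_range]
              refine Finset.sum_congr rfl fun k _ => ?_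
              simp
            rw [hval, norm_zero]
            positivity
    have hfin : (j '' (Failures c b δ L A T)).Finite := h1.subset hsub
    have hfin' : (Failures c b δ L A T).Finite := Set.Finite.of_finite_image hfin hj.injOn
    refine ⟨hfin', ?_⟩
    have h3 := Set.ncard_le_ncard hsub h1
    rw [Set.ncard_image_of_injective _ hj] at h3
    exact le_trans (by exact_mod_cast h3) h2

/-- (1) Let `c_i` be nonzero integers, `b_i` rational numbers, and let `L` be a compact set of reals on which no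
`c_i x + b_i` is zero or a negative integer. For all `δ`, `A` and `ε > 0` there are `C`, `T₀` such that for `T ≥ T₀` at
most `C T ^ ε` rational numbers `x` in `L` with numerator and denominator at most `T` are such that
`Γ(c_1 x + b_1) ⋯ Γ(c_r x + b_r) = β π ^ (r / 2)`, with `β` a root of a nonzero integer polynomial of degree at most `δ`
and with coefficients at most `T ^ A`, while the identity of Rohrlich's conjecture fails.
(2) Let `c_i` be nonzero integers, `b_i` rational and `κ_(l i)` integers such that for every nonzero integer vector `e`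
there is a rational `x`, no `c_i x + b_i` an integer, with `∑_l e_l ∑_i κ_(l i) ({c_i x + b_i} - 1/2) ≠ 0`. Let `L` be a
compact set of complex numbers on which no `c_i z + b_i` is zero or a negative integer. For all `m`, `n`, `g`, `d`, `A`
and `ε > 0` there are `B`, `C`, `T₀` such that for every number field `F` of degree at most `m`, every embedding of `F`
in `ℂ`, all complex `ξ_1, …, ξ_g` and all `T ≥ T₀` the number of exceptional `n`-tuples is at most `C T ^ ε N ^ (n - 1)`,
where `N` is the number of points. -/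
theorem result :
    (∀ (r : ℕ) (c : Fin r → ℤ), (∀ i, c i ≠ 0) → ∀ (b : Fin r → ℚ) (δ : ℕ) (L : Set ℝ), IsCompact L →
      (∀ x ∈ L, ∀ i, ∀ k : ℕ, (c i : ℝ) * x + b i ≠ -k) → ∀ A ε : ℝ, 0 < ε →
      ∃ C T₀ : ℝ, ∀ T : ℝ, T₀ ≤ T → (Failures c b δ L A T).Finite ∧
        ((Failures c b δ L A T).ncard : ℝ) ≤ C * T ^ ε) ∧
    ∀ (p s : ℕ) (c : Fin p → ℤ), (∀ i, c i ≠ 0) → ∀ (b : Fin p → ℚ) (κ : Fin s → Fin p → ℤ),
      (∀ e : Fin s → ℤ, e ≠ 0 → ∃ x : ℚ, (∀ i, ∀ n : ℤ, (c i : ℚ) * x + b i ≠ n) ∧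
        ∑ l, (e l : ℚ) * ∑ i, (κ l i : ℚ) * (Int.fract ((c i : ℚ) * x + b i) - 1 / 2) ≠ 0) →
      ∀ (m n g d : ℕ) (L : Set ℂ), IsCompact L → (∀ z ∈ L, ∀ i, ∀ k : ℕ, (c i : ℂ) * z + b i ≠ -k) →
      ∀ A ε : ℝ, 0 < ε → ∃ B C T₀ : ℝ, ∀ (F : Type) [Field F] [NumberField F], Module.finrank ℚ F ≤ m →
        ∀ (ι : F →+* ℂ) (ξ : Fin g → ℂ) (T : ℝ), T₀ ≤ T → (Exceptional n d c b κ F ι ξ L A B T).Finite ∧
          ((Exceptional n d c b κ F ι ξ L A B T).ncard : ℝ) ≤
            C * T ^ ε * ((Points F ι L T).ncard : ℝ) ^ (n - 1) :=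
  ⟨fun r c hc b δ L hL hL' A ε hε => part1 r c hc b δ L hL hL' A ε hε,
    fun p s c hc b κ hκ m n g d L hL hL' A ε hε => part2 p s c hc b κ hκ m n g d L hL hL' A ε hε⟩

end Pool.Agent.Results.MP_c2409d_nt.RationalLines
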